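import Pool.Agent.Work.MP_b29d7f_ns.Interface3

/-! # Block COMP2B: from `TransMin` to the maps `trq` -/

set_option autoImplicit false

open Finset Filter Topology MeasureTheory

namespace Pool.NS

namespace COMP2B_

variable {k : ℕ}

/-- coordinates -/
noncomputable def Y (U : E k ≃ₗᵢ[ℝ] E k) (i₀ : Fin k) (a : ℝ) (z : E k) (i : Fin k) : ℝ :=
  (U z) i - if i = i₀ then a else 0

/-- mirror image of an index -/
def mir (i₀ : Fin k) (g : Fin k → ℤ) : Fin k → ℤ := fun i => if i = i₀ then -g i - 1 else g i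

/-- index of the large cube -/
def coa (n : ℕ) (g : Fin k → ℤ) : Fin k → ℤ := fun i => g i / (n : ℤ)

open scoped Classical in
/-- the cubes which are moved -/
def mv (i₀ : Fin k) (n : ℕ) (F : Finset (Fin k → ℤ)) (g : Fin k → ℤ) : Prop :=
  coa n g ∈ F ∨ mir i₀ (coa n g) ∈ F

lemma neg_ediv (n : ℕ) (hn : 0 < n) (g : ℤ) : (-g - 1) / (n : ℤ) = -(g / (n : ℤ)) - 1 := by
  have hn' : (0 : ℤ) < n := by exact_mod_cast hn
  have h1 := Int.mul_ediv_add_emod g n
  have h2 := Int.emod_nonneg g hn'.ne'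
  have h3 := Int.emod_lt_of_pos g hn'
  have h4 : -g - 1 = (n - 1 - g % n) + n * (-(g / n) - 1) := by
    have : n * (-(g / (n : ℤ)) - 1) = -(n * (g / n)) - n := by ring
    rw [this]
    linarith
  rw [h4, Int.add_mul_ediv_left _ _ hn'.ne', Int.ediv_eq_zero_of_lt (by linarith) (by linarith),
    zero_add]

lemma coa_mir (i₀ : Fin k) (n : ℕ) (hn : 0 < n) (g : Fin k → ℤ) :
    coa n (mir i₀ g) = mir i₀ (coa n g) := by
  funext i
  unfold coa mir
  by_cases hi : i = i₀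
  · simp only [if_pos hi]
    exact neg_ediv n hn _
  · simp only [if_neg hi]

lemma mir_mir (i₀ : Fin k) (g : Fin k → ℤ) : mir i₀ (mir i₀ g) = g := by
  funext i
  unfold mir
  by_cases hi : i = i₀
  · simp only [if_pos hi]; ring
  · simp only [if_neg hi]

lemma mv_mir (i₀ : Fin k) (n : ℕ) (hn : 0 < n) (F : Finset (Fin k → ℤ)) (g : Fin k → ℤ) :
    mv i₀ n F (mir i₀ g) ↔ mv i₀ n F g := by
  unfold mv
  rw [coa_mir i₀ n hn, mir_mir]
  exact or_comm

open scoped Classical in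
/-- the permutation of the cells -/
noncomputable def hat (i₀ : Fin k) (n : ℕ) (F : Finset (Fin k → ℤ)) (g : Fin k → ℤ) :
    Fin k → ℤ :=
  if mv i₀ n F g then mir i₀ g else g

lemma hat_hat (i₀ : Fin k) (n : ℕ) (hn : 0 < n) (F : Finset (Fin k → ℤ)) (g : Fin k → ℤ) :
    hat i₀ n F (hat i₀ n F g) = g := by
  by_cases h : mv i₀ n F g
  · have e1 : hat i₀ n F g = mir i₀ g := if_pos h
    have e2 : hat i₀ n F (mir i₀ g) = mir i₀ (mir i₀ g) := if_pos ((mv_mir i₀ n hn F g).2 h)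
    rw [e1, e2, mir_mir]
  · have e1 : hat i₀ n F g = g := if_neg h
    rw [e1, e1]

lemma hat_inj (i₀ : Fin k) (n : ℕ) (hn : 0 < n) (F : Finset (Fin k → ℤ)) :
    Function.Injective (hat i₀ n F) :=
  (show Function.Involutive (hat i₀ n F) from hat_hat i₀ n hn F).injective

section cells

variable (U : E k ≃ₗᵢ[ℝ] E k) (i₀ : Fin k) (a : ℝ)

lemma U_uv : U (uv U i₀) = EuclideanSpace.single i₀ 1 := by
  unfold uv
  exact U.apply_symm_apply _

lemma Y_add (z : E k) (t : ℝ) (i : Fin k) :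
    Y U i₀ a (z + t • uv U i₀) i = Y U i₀ a z i + if i = i₀ then t else 0 := by
  unfold Y
  rw [map_add, map_smul, U_uv]
  by_cases hi : i = i₀
  · subst hi
    simp
    ring
  · simp [hi]

lemma norm_uv : ‖uv U i₀‖ = 1 := by
  unfold uv
  rw [LinearIsometryEquiv.norm_map]
  simp

lemma Y_sub_le (z z' : E k) (i : Fin k) : |Y U i₀ a z i - Y U i₀ a z' i| ≤ ‖z - z'‖ := by
  have h1 : Y U i₀ a z i - Y U i₀ a z' i = (U (z - z')) i := by
    unfold Y
    rw [map_sub]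
    simp
  rw [h1, ← Real.norm_eq_abs, ← U.norm_map (z - z')]
  exact PiLp.norm_apply_le _ i

lemma Y_abs_le (z : E k) (i : Fin k) : |Y U i₀ a z i| ≤ ‖z‖ + |a| := by
  have h1 : |(U z) i| ≤ ‖z‖ := by
    rw [← Real.norm_eq_abs, ← U.norm_map z]
    exact PiLp.norm_apply_le _ i
  have h2 : |(if i = i₀ then a else 0 : ℝ)| ≤ |a| := by
    split_ifs
    · exact le_rfl
    · simp
  unfold Y
  exact (abs_sub _ _).trans (add_le_add h1 h2)

/-- the translation vector of a cell -/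
noncomputable def wv (p q : ℕ) (F : Finset (Fin k → ℤ)) (g : Fin k → ℤ) : E k := by
  classical
  exact if mv i₀ (2 ^ (q - p)) F g then (-((2 * (g i₀ : ℝ) + 1) / 2 ^ q)) • uv U i₀ else 0

lemma floor_pow {p q : ℕ} (hpq : p ≤ q) (t : ℝ) :
    ⌊(2 : ℝ) ^ p * t⌋ = ⌊(2 : ℝ) ^ q * t⌋ / ((2 ^ (q - p) : ℕ) : ℤ) := by
  rw [← Int.floor_div_natCast]
  congr 1
  have h1 : (2 : ℝ) ^ q = 2 ^ (q - p) * 2 ^ p := by rw [← pow_add, Nat.sub_add_cancel hpq]
  rw [h1]
  push_cast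
  field_simp

lemma mem_iff_mv {p q : ℕ} (hpq : p ≤ q) (F : Finset (Fin k → ℤ)) (g : Fin k → ℤ) (z : E k)
    (hz : ∀ i, ⌊(2 : ℝ) ^ q * Y U i₀ a z i⌋ = g i) :
    z ∈ grd U i₀ a p F ∪ mgr U i₀ a p F ↔ mv i₀ (2 ^ (q - p)) F g := by
  have h1 : (fun i => ⌊(2 : ℝ) ^ p * ((U z) i - if i = i₀ then a else 0)⌋)
      = coa (2 ^ (q - p)) g := by
    funext i
    unfold coa
    rw [← hz i, ← floor_pow hpq]
    rfl
  have h2 : (fun i => if i = i₀ then -⌊(2 : ℝ) ^ p * ((U z) i₀ - a)⌋ - 1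
      else ⌊(2 : ℝ) ^ p * (U z) i⌋) = mir i₀ (coa (2 ^ (q - p)) g) := by
    funext i
    have h3 := congrFun h1 i
    unfold mir
    rw [← h3]
    by_cases hi : i = i₀
    · subst hi
      simp
    · simp [hi]
  unfold mv grd mgr
  rw [Set.mem_union, Set.mem_ofPred_eq, Set.mem_ofPred_eq, h1, h2]

lemma trq_eq {p q : ℕ} (hpq : p ≤ q) (F : Finset (Fin k → ℤ)) (g : Fin k → ℤ) (z : E k)
    (hz : ∀ i, ⌊(2 : ℝ) ^ q * Y U i₀ a z i⌋ = g i) :
    trq U i₀ a p q F z = z + wv U i₀ p q F g := by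
  classical
  unfold trq wv
  have h0 : ⌊(2 : ℝ) ^ q * ((U z) i₀ - a)⌋ = g i₀ := by
    rw [← hz i₀]
    unfold Y
    simp
  by_cases h : mv i₀ (2 ^ (q - p)) F g
  · rw [if_pos ((mem_iff_mv U i₀ a hpq F g z hz).2 h), if_pos h, h0]
    module
  · rw [if_neg (fun h' => h ((mem_iff_mv U i₀ a hpq F g z hz).1 h')), if_neg h, add_zero]

/-- bound for the displacement -/
lemma trq_near (p : ℕ) (F : Finset (Fin k → ℤ)) : ∃ W : ℝ, 0 ≤ W ∧ ∀ (q : ℕ) (z : E k),
    ‖trq U i₀ a p q F z - z‖ ≤ W := by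
  classical
  set G : ℝ := ∑ g ∈ F, |(g i₀ : ℝ)| + 1 with hG
  have hG0 : 0 ≤ G := by positivity
  refine ⟨2 * (G + 1) + 3, by positivity, ?_⟩
  intro q z
  unfold trq
  split_ifs with h
  · have h1 : |((⌊(2 : ℝ) ^ p * ((U z) i₀ - a)⌋ : ℤ) : ℝ)| ≤ G := by
      rcases h with h | h
      · have h2 : (fun i => ⌊(2 : ℝ) ^ p * ((U z) i - if i = i₀ then a else 0)⌋) ∈ F := h
        have h3 := Finset.single_le_sum (f := fun g : Fin k → ℤ => |(g i₀ : ℝ)|)
          (fun _ _ => abs_nonneg _) h2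
        simp only [if_true] at h3
        linarith
      · have h2 : (fun i => if i = i₀ then -⌊(2 : ℝ) ^ p * ((U z) i₀ - a)⌋ - 1
          else ⌊(2 : ℝ) ^ p * (U z) i⌋) ∈ F := h
        have h3 := Finset.single_le_sum (f := fun g : Fin k → ℤ => |(g i₀ : ℝ)|)
          (fun _ _ => abs_nonneg _) h2
        simp only [if_true] at h3
        push_cast at h3
        have h4 : |((⌊(2 : ℝ) ^ p * ((U z) i₀ - a)⌋ : ℤ) : ℝ)|
            ≤ |-((⌊(2 : ℝ) ^ p * ((U z) i₀ - a)⌋ : ℤ) : ℝ) - 1| + 1 := by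
          have := abs_sub (-((⌊(2 : ℝ) ^ p * ((U z) i₀ - a)⌋ : ℤ) : ℝ) - 1) (-1)
          rw [abs_neg (1 : ℝ), abs_one, sub_neg_eq_add, sub_add_cancel, abs_neg] at this
          exact this
        linarith
    have hp : (1 : ℝ) ≤ 2 ^ p := one_le_pow₀ (by norm_num)
    have hq : (1 : ℝ) ≤ 2 ^ q := one_le_pow₀ (by norm_num)
    set t : ℝ := (U z) i₀ - a with ht
    have h5 : |t| ≤ G + 1 := by
      have h6 := Int.floor_le ((2 : ℝ) ^ p * t)
      have h7 := Int.lt_floor_add_one ((2 : ℝ) ^ p * t)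
      have h8 := abs_le.1 h1
      have h9 : |(2 : ℝ) ^ p * t| ≤ G + 1 := by
        rw [abs_le]; constructor <;> linarith
      rw [abs_mul, abs_of_pos (by positivity : (0 : ℝ) < 2 ^ p)] at h9
      have := abs_nonneg t
      nlinarith
    have h6 : z - ((2 * ((⌊(2 : ℝ) ^ q * t⌋ : ℤ) : ℝ) + 1) / 2 ^ q) • uv U i₀ - z
        = (-((2 * ((⌊(2 : ℝ) ^ q * t⌋ : ℤ) : ℝ) + 1) / 2 ^ q)) • uv U i₀ := by module
    rw [h6, norm_smul, norm_uv, mul_one, norm_neg, Real.norm_eq_abs, abs_div,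
      abs_of_pos (by positivity : (0 : ℝ) < 2 ^ q), div_le_iff₀ (by positivity)]
    have h7 := Int.floor_le ((2 : ℝ) ^ q * t)
    have h8 := Int.lt_floor_add_one ((2 : ℝ) ^ q * t)
    have h9 : |(2 : ℝ) ^ q * t| ≤ (G + 1) * 2 ^ q := by
      rw [abs_mul, abs_of_pos (by positivity : (0 : ℝ) < 2 ^ q), mul_comm]
      exact mul_le_mul_of_nonneg_right h5 (by positivity)
    have h10 := abs_le.1 h9
    rw [abs_le]
    constructor <;> nlinarith
  · simp
    positivity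

/-- a point with given coordinates -/
lemma exists_Y (c : Fin k → ℝ) : ∃ z : E k, ∀ i, Y U i₀ a z i = c i := by
  refine ⟨U.symm (WithLp.toLp 2 (fun i => c i + if i = i₀ then a else 0)), fun i => ?_⟩
  unfold Y
  rw [U.apply_symm_apply]
  simp

lemma wv_near {p q : ℕ} (hpq : p ≤ q) (F : Finset (Fin k → ℤ)) {W : ℝ}
    (hW : ∀ z : E k, ‖trq U i₀ a p q F z - z‖ ≤ W) (g : Fin k → ℤ) :
    ‖wv U i₀ p q F g‖ ≤ W := by
  obtain ⟨z, hz⟩ := exists_Y U i₀ a (fun i => (g i : ℝ) / 2 ^ q)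
  have h1 : ∀ i, ⌊(2 : ℝ) ^ q * Y U i₀ a z i⌋ = g i := by
    intro i
    rw [hz i, mul_div_cancel₀ _ (by positivity : (2 : ℝ) ^ q ≠ 0), Int.floor_intCast]
  have h2 := hW z
  rw [trq_eq U i₀ a hpq F g z h1, add_sub_cancel_left] at h2
  exact h2

/-- shrunk cells -/
def cell (q : ℕ) (δ : ℝ) (g : Fin k → ℤ) : Set (E k) :=
  {z | ∀ i, (g i : ℝ) / 2 ^ q + δ ≤ Y U i₀ a z i ∧ Y U i₀ a z i ≤ ((g i : ℝ) + 1) / 2 ^ q - δ}

lemma floor_cell {q : ℕ} {δ : ℝ} (hδ : 0 < δ) {g : Fin k → ℤ} {z : E k}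
    (hz : z ∈ cell U i₀ a q δ g) (i : Fin k) : ⌊(2 : ℝ) ^ q * Y U i₀ a z i⌋ = g i := by
  obtain ⟨h1, h2⟩ := hz i
  have hq : (0 : ℝ) < 2 ^ q := by positivity
  rw [Int.floor_eq_iff]
  have h3 : (g i : ℝ) / 2 ^ q ≤ Y U i₀ a z i := by linarith
  have h4 : Y U i₀ a z i < ((g i : ℝ) + 1) / 2 ^ q := by linarith
  rw [div_le_iff₀ hq] at h3
  rw [lt_div_iff₀ hq] at h4
  constructor <;> linarith

lemma cell_move {p q : ℕ} {δ : ℝ} (F : Finset (Fin k → ℤ)) {g : Fin k → ℤ}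
    {z : E k} (hz : z ∈ cell U i₀ a q δ g) :
    z + wv U i₀ p q F g ∈ cell U i₀ a q δ (hat i₀ (2 ^ (q - p)) F g) := by
  classical
  intro i
  obtain ⟨h1, h2⟩ := hz i
  unfold wv hat
  by_cases h : mv i₀ (2 ^ (q - p)) F g
  · rw [if_pos h, if_pos h, Y_add]
    unfold mir
    by_cases hi : i = i₀
    · subst hi
      rw [if_pos rfl, if_pos rfl]
      push_cast
      have e1 : (-(g i : ℝ) - 1) / 2 ^ q = -(((g i : ℝ) + 1) / 2 ^ q) := by ring
      have e2 : (-(g i : ℝ) - 1 + 1) / 2 ^ q = -((g i : ℝ) / 2 ^ q) := by ring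
      have e3 : (2 * (g i : ℝ) + 1) / 2 ^ q = (g i : ℝ) / 2 ^ q + ((g i : ℝ) + 1) / 2 ^ q := by ring
      rw [e1, e2, e3]
      constructor <;> linarith
    · rw [if_neg hi, if_neg hi, add_zero]
      exact ⟨h1, h2⟩
  · rw [if_neg h, if_neg h, add_zero]
    exact ⟨h1, h2⟩

lemma cell_sep {q : ℕ} {δ : ℝ} {g g' : Fin k → ℤ} (hg : g ≠ g') {z z' : E k}
    (hz : z ∈ cell U i₀ a q δ g) (hz' : z' ∈ cell U i₀ a q δ g') : 2 * δ ≤ ‖z - z'‖ := by
  obtain ⟨i, hi⟩ := Function.ne_iff.1 hg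
  have hq : (0 : ℝ) < 2 ^ q := by positivity
  have h1 := hz i
  have h2 := hz' i
  have h3 := Y_sub_le U i₀ a z z' i
  have h4 := abs_le.1 h3
  rcases lt_or_gt_of_ne hi with h | h
  · have h5 : ((g i : ℝ) + 1) / 2 ^ q ≤ (g' i : ℝ) / 2 ^ q := by
      apply div_le_div_of_nonneg_right _ hq.le
      exact_mod_cast h
    linarith [h1.2, h2.1, h4.1]
  · have h5 : ((g' i : ℝ) + 1) / 2 ^ q ≤ (g i : ℝ) / 2 ^ q := by
      apply div_le_div_of_nonneg_right _ hq.le
      exact_mod_cast h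
    linarith [h1.1, h2.2, h4.2]

lemma Y_cont (i : Fin k) : Continuous fun z => Y U i₀ a z i := by
  unfold Y
  have : Continuous fun z : E k => (U z) i := by
    have h1 : Continuous fun z : E k => U z := U.continuous
    exact (PiLp.continuous_apply 2 _ i).comp h1
  exact this.sub continuous_const

lemma cell_closed (q : ℕ) (δ : ℝ) (g : Fin k → ℤ) : IsClosed (cell U i₀ a q δ g) := by
  unfold cell
  rw [Set.ofPred_forall]
  apply isClosed_iInter
  intro i
  exact (isClosed_le continuous_const (Y_cont U i₀ a i)).inter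
    (isClosed_le (Y_cont U i₀ a i) continuous_const)

lemma cell_meas (q : ℕ) (δ : ℝ) (g : Fin k → ℤ) : MeasurableSet (cell U i₀ a q δ g) :=
  (cell_closed U i₀ a q δ g).measurableSet

lemma Y_comb (z z' : E k) (s t : ℝ) (hst : s + t = 1) (i : Fin k) :
    Y U i₀ a (s • z + t • z') i = s * Y U i₀ a z i + t * Y U i₀ a z' i := by
  unfold Y
  rw [map_add, map_smul, map_smul]
  simp only [PiLp.add_apply, PiLp.smul_apply, smul_eq_mul]
  have h1 : (if i = i₀ then a else 0 : ℝ) = s * (if i = i₀ then a else 0)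
      + t * (if i = i₀ then a else 0) := by
    rw [← add_mul, hst, one_mul]
  linarith

lemma cell_convex (q : ℕ) (δ : ℝ) (g : Fin k → ℤ) : Convex ℝ (cell U i₀ a q δ g) := by
  intro z hz z' hz' s t hs ht hst i
  rw [Y_comb U i₀ a z z' s t hst]
  obtain ⟨h1, h2⟩ := hz i
  obtain ⟨h3, h4⟩ := hz' i
  have ht' : t = 1 - s := by linarith
  subst ht'
  constructor <;> nlinarith

lemma cell_frontier (q : ℕ) (δ : ℝ) (g : Fin k → ℤ) :
    volume (frontier (cell U i₀ a q δ g)) = 0 :=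
  (cell_convex U i₀ a q δ g).addHaar_frontier volume

lemma cell_bounded (q : ℕ) (δ : ℝ) (g : Fin k → ℤ) :
    Bornology.IsBounded (cell U i₀ a q δ g) := by
  rw [isBounded_iff_forall_norm_le]
  refine ⟨√(∑ i, (|(g i : ℝ) / 2 ^ q + δ| + |((g i : ℝ) + 1) / 2 ^ q - δ| + |a|) ^ 2), ?_⟩
  intro z hz
  rw [← U.norm_map z]
  apply Real.le_sqrt_of_sq_le
  rw [EuclideanSpace.norm_sq_eq]
  apply Finset.sum_le_sum
  intro i _
  apply pow_le_pow_left₀ (norm_nonneg _)
  rw [Real.norm_eq_abs]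
  obtain ⟨h1, h2⟩ := hz i
  have h3 : (U z) i = Y U i₀ a z i + if i = i₀ then a else 0 := by unfold Y; ring
  have h4 : |(if i = i₀ then a else 0 : ℝ)| ≤ |a| := by
    split_ifs
    · exact le_rfl
    · simp
  have h5 : |Y U i₀ a z i| ≤ |(g i : ℝ) / 2 ^ q + δ| + |((g i : ℝ) + 1) / 2 ^ q - δ| := by
    have h6 := neg_abs_le ((g i : ℝ) / 2 ^ q + δ)
    have h7 := le_abs_self (((g i : ℝ) + 1) / 2 ^ q - δ)
    have h8 := abs_nonneg ((g i : ℝ) / 2 ^ q + δ)
    have h9 := abs_nonneg (((g i : ℝ) + 1) / 2 ^ q - δ)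
    rw [abs_le]
    constructor <;> linarith
  rw [h3]
  exact (abs_add_le _ _).trans (add_le_add h5 h4)

end cells

/-! ## Integrals -/

/-- restriction of a double integral to a set carrying most of the mass -/
lemma restr {f : E k → ℝ} {K : E k × E k → ℝ} {K₀ : ℝ} (hf0 : ∀ z, 0 ≤ f z)
    (hfi : Integrable f) (hm : ∫ z, f z = 1) (hK : Measurable K) (hKb : ∀ z, |K z| ≤ K₀)
    {D : Set (E k)} (hD : MeasurableSet D) :
    ∫ z in D, ∫ z' in D, K (z, z') * (f z * f z') ≤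
      (∫ z, ∫ z', K (z, z') * (f z * f z')) + 2 * K₀ * (1 - ∫ z in D, f z) := by
  have hK0 : 0 ≤ K₀ := (abs_nonneg _).trans (hKb (0, 0))
  have h1 : Integrable (fun z : E k × E k => f z.1 * f z.2) (volume.prod volume) :=
    hfi.mul_prod hfi
  have h2 : Integrable (fun z : E k × E k => K z * (f z.1 * f z.2)) (volume.prod volume) := by
    apply h1.bdd_mul (c := K₀) hK.aestronglyMeasurable
    filter_upwards with z
    rw [Real.norm_eq_abs]
    exact hKb z
  have hDD : MeasurableSet (D ×ˢ D) := hD.prod hD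
  have h3 : ∫ z in D, ∫ z' in D, K (z, z') * (f z * f z')
      = ∫ z in D ×ˢ D, K z * (f z.1 * f z.2) ∂(volume.prod volume) := by
    rw [setIntegral_prod _ h2.integrableOn]
  have h4 : ∫ z, ∫ z', K (z, z') * (f z * f z')
      = ∫ z, K z * (f z.1 * f z.2) ∂(volume.prod volume) := by
    rw [integral_prod _ h2]
  rw [h3, h4, ← integral_add_compl hDD h2]
  have h5 : -(K₀ * ∫ z in (D ×ˢ D)ᶜ, f z.1 * f z.2 ∂(volume.prod volume)) ≤
      ∫ z in (D ×ˢ D)ᶜ, K z * (f z.1 * f z.2) ∂(volume.prod volume) := by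
    rw [← integral_const_mul, ← integral_neg]
    apply integral_mono_ae (h1.integrableOn.const_mul _).neg h2.integrableOn
    filter_upwards with z
    have h6 := neg_le_of_abs_le (hKb z)
    have h7 := mul_nonneg (hf0 z.1) (hf0 z.2)
    have h8 := mul_le_mul_of_nonneg_right h6 h7
    simp only [Pi.neg_apply]
    linarith
  have h6 : ∫ z in (D ×ˢ D)ᶜ, f z.1 * f z.2 ∂(volume.prod volume)
      = 1 - (∫ z in D, f z) ^ 2 := by
    have h7 := integral_add_compl hDD h1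
    rw [integral_prod_mul, hm, setIntegral_prod_mul] at h7
    linarith
  have h7 : 0 ≤ ∫ z in D, f z := setIntegral_nonneg hD fun z _ => hf0 z
  have h8 : ∫ z in D, f z ≤ 1 := by
    rw [← hm]
    exact setIntegral_le_integral hfi (Filter.Eventually.of_forall hf0)
  rw [h6] at h5
  have h9 : 1 - (∫ z in D, f z) ^ 2 ≤ 2 * (1 - ∫ z in D, f z) := by nlinarith
  have h10 := mul_le_mul_of_nonneg_left h9 hK0
  linarith

/-- double integral over a union of cells -/
lemma cells_sum {ι : Type} {Γ : Finset ι} {Q : ι → Set (E k)} {H : E k × E k → ℝ}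
    (hQ : ∀ i, MeasurableSet (Q i)) (hd : ∀ i ∈ Γ, ∀ j ∈ Γ, i ≠ j → Disjoint (Q i) (Q j))
    (hH : Integrable H (volume.prod volume)) :
    ∑ i ∈ Γ, ∑ j ∈ Γ, ∫ z in Q i, ∫ z' in Q j, H (z, z') =
      ∫ z in ⋃ i ∈ Γ, Q i, ∫ z' in ⋃ i ∈ Γ, Q i, H (z, z') := by
  have h1 : ∀ i j, ∫ z in Q i, ∫ z' in Q j, H (z, z')
      = ∫ z in Q i ×ˢ Q j, H z ∂(volume.prod volume) := by
    intro i j
    rw [setIntegral_prod _ hH.integrableOn]
  have h2 : ∫ z in ⋃ i ∈ Γ, Q i, ∫ z' in ⋃ i ∈ Γ, Q i, H (z, z')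
      = ∫ z in (⋃ i ∈ Γ, Q i) ×ˢ (⋃ i ∈ Γ, Q i), H z ∂(volume.prod volume) := by
    rw [setIntegral_prod _ hH.integrableOn]
  have h3 : (⋃ i ∈ Γ, Q i) ×ˢ (⋃ i ∈ Γ, Q i) = ⋃ x ∈ Γ ×ˢ Γ, Q x.1 ×ˢ Q x.2 := by
    ext z
    simp only [Set.mem_prod, Set.mem_iUnion, Finset.mem_product, exists_prop, Prod.exists]
    constructor
    · rintro ⟨⟨i, hi, hzi⟩, j, hj, hzj⟩
      exact ⟨i, j, ⟨hi, hj⟩, hzi, hzj⟩
    · rintro ⟨i, j, ⟨hi, hj⟩, hzi, hzj⟩
      exact ⟨⟨i, hi, hzi⟩, j, hj, hzj⟩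
  rw [h2, h3, integral_biUnion_finset, Finset.sum_product]
  · exact Finset.sum_congr rfl fun i _ => Finset.sum_congr rfl fun j _ => h1 i j
  · intro x _
    exact (hQ _).prod (hQ _)
  · intro x hx y hy hxy
    have hx' := Finset.mem_product.1 hx
    have hy' := Finset.mem_product.1 hy
    rw [Function.onFun, Set.disjoint_prod]
    by_cases h : x.1 = y.1
    · right
      exact hd _ hx'.2 _ hy'.2 fun h' => hxy (Prod.ext h h')
    · left
      exact hd _ hx'.1 _ hy'.1 h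
  · intro x _
    exact hH.integrableOn

/-- bound for the difference of the truncated logarithms -/
lemma K_bound {W e s t : ℝ} (he : 0 < e) (hs : 0 ≤ s) (ht : 0 ≤ t)
    (hst : |s - t| ≤ 2 * W) :
    |Real.log (s ^ 2 + e ^ 2) - Real.log (t ^ 2 + e ^ 2)| ≤ Real.log (2 + 8 * W ^ 2 / e ^ 2) := by
  have key : ∀ s t : ℝ, 0 ≤ s → 0 ≤ t → s ≤ t + 2 * W →
      Real.log (s ^ 2 + e ^ 2) - Real.log (t ^ 2 + e ^ 2) ≤ Real.log (2 + 8 * W ^ 2 / e ^ 2) := by
    intro s t hs ht hst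
    rw [sub_le_iff_le_add, ← Real.log_mul (by positivity) (by positivity)]
    apply Real.log_le_log (by positivity)
    have h1 : (2 + 8 * W ^ 2 / e ^ 2) * (t ^ 2 + e ^ 2)
        = 2 * t ^ 2 + 2 * e ^ 2 + 8 * W ^ 2 + 8 * W ^ 2 / e ^ 2 * t ^ 2 := by
      field_simp
      ring
    rw [h1]
    have h2 : 0 ≤ 8 * W ^ 2 / e ^ 2 * t ^ 2 := by positivity
    have h3 : s ^ 2 ≤ (t + 2 * W) ^ 2 := pow_le_pow_left₀ hs hst 2
    nlinarith [sq_nonneg (t - 2 * W), sq_nonneg e]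
  have h4 := abs_le.1 hst
  rw [abs_le]
  constructor
  · have := key t s ht hs (by linarith)
    linarith
  · exact key s t hs ht (by linarith)

section final

variable (U : E k ≃ₗᵢ[ℝ] E k) (i₀ : Fin k) (a : ℝ)

lemma trq_meas (p q : ℕ) (F : Finset (Fin k → ℤ)) : Measurable (trq U i₀ a p q F) := by
  have hc : ∀ i, Measurable fun z : E k => (U z) i := fun i =>
    ((PiLp.continuous_apply 2 _ i).comp U.continuous).measurable
  have h1 : MeasurableSet (grd U i₀ a p F) := by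
    have h2 : Measurable fun (z : E k) (i : Fin k) =>
        ⌊(2 : ℝ) ^ p * ((U z) i - if i = i₀ then a else 0)⌋ := by
      rw [measurable_pi_iff]
      intro i
      exact Int.measurable_floor.comp (((hc i).sub_const _).const_mul _)
    exact h2 F.measurableSet
  have h3 : MeasurableSet (mgr U i₀ a p F) := by
    have h2 : Measurable fun (z : E k) (i : Fin k) =>
        if i = i₀ then -⌊(2 : ℝ) ^ p * ((U z) i₀ - a)⌋ - 1 else ⌊(2 : ℝ) ^ p * (U z) i⌋ := by
      rw [measurable_pi_iff]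
      intro i
      by_cases hi : i = i₀
      · simp only [if_pos hi]
        exact (Int.measurable_floor.comp (((hc i₀).sub_const _).const_mul _)).neg.sub_const _
      · simp only [if_neg hi]
        exact Int.measurable_floor.comp ((hc i).const_mul _)
    exact h2 F.measurableSet
  unfold trq
  apply Measurable.ite (h1.union h3) _ measurable_id
  apply measurable_id.sub
  apply Measurable.smul_const
  apply Measurable.div_const
  apply Measurable.add_const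
  apply Measurable.const_mul
  have h4 : Measurable fun z : E k => ⌊(2 : ℝ) ^ q * ((U z) i₀ - a)⌋ :=
    Int.measurable_floor.comp (((hc i₀).sub_const _).const_mul _)
  exact (measurable_from_top (f := fun m : ℤ => (m : ℝ))).comp h4

lemma ae_coord (i : Fin k) (t : ℝ) : ∀ᵐ z : E k, (U z) i ≠ t := by
  have h1 : ∀ᵐ w : Fin k → ℝ, w i ≠ t :=
    Measure.ae_eval_ne (α := fun _ : Fin k => ℝ) (fun _ => volume) i t
  have h2 : ∀ᵐ z : E k, z i ≠ t :=
    (PiLp.volume_preserving_ofLp (Fin k)).quasiMeasurePreserving.ae h1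
  exact U.measurePreserving.quasiMeasurePreserving.ae h2

lemma ae_Y (q : ℕ) : ∀ᵐ z : E k, ∀ (i : Fin k) (m : ℤ), (2 : ℝ) ^ q * Y U i₀ a z i ≠ m := by
  rw [ae_all_iff]
  intro i
  rw [ae_all_iff]
  intro m
  filter_upwards [ae_coord U i ((m : ℝ) / 2 ^ q + if i = i₀ then a else 0)] with z hz h1
  apply hz
  have hq : (0 : ℝ) < 2 ^ q := by positivity
  rw [← h1]
  unfold Y
  field_simp
  ring

lemma mass_lim {f φ : E k → ℝ} (h : Dens k f φ) (q : ℕ) : ∃ Γ : Finset (Fin k → ℤ),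
    ∀ η : ℝ, 0 < η → ∃ δ : ℝ, 0 < δ ∧ 1 - η ≤ ∫ z in ⋃ g ∈ Γ, cell U i₀ a q δ g, f z := by
  obtain ⟨R₀, hR⟩ := h.supp
  have hfi : Integrable f := by
    by_contra hcon
    have := integral_undef hcon
    rw [h.mass] at this
    exact one_ne_zero this
  obtain ⟨N, hN⟩ := exists_nat_ge ((2 : ℝ) ^ q * (|R₀| + |a|) + 1)
  refine ⟨Fintype.piFinset fun _ => Finset.Icc (-(N : ℤ)) N, ?_⟩
  set Γ : Finset (Fin k → ℤ) := Fintype.piFinset fun _ => Finset.Icc (-(N : ℤ)) N with hΓ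
  intro η hη
  set s : ℕ → Set (E k) := fun n => ⋃ g ∈ Γ, cell U i₀ a q (1 / ((n : ℝ) + 1)) g with hs
  have hq : (0 : ℝ) < 2 ^ q := by positivity
  have hms : ∀ n, MeasurableSet (s n) := fun n =>
    Finset.measurableSet_biUnion _ fun g _ => cell_meas U i₀ a q _ g
  have hmono : Monotone s := by
    intro n m hnm
    apply Set.iUnion₂_mono
    intro g _ z hz i
    have h1 : 1 / ((m : ℝ) + 1) ≤ 1 / ((n : ℝ) + 1) := by
      apply one_div_le_one_div_of_le (by positivity)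
      have : (n : ℝ) ≤ m := by exact_mod_cast hnm
      linarith
    obtain ⟨h2, h3⟩ := hz i
    constructor <;> linarith
  have hlim := tendsto_setIntegral_of_monotone (μ := volume) hms hmono hfi.integrableOn
  have hall : ∫ z in ⋃ n, s n, f z = 1 := by
    rw [← h.mass]
    apply setIntegral_eq_integral_of_ae_compl_eq_zero
    filter_upwards [ae_Y U i₀ a q] with z hz hzs
    by_contra hne
    apply hzs
    have hzR : ‖z‖ < R₀ := by
      by_contra hcon
      exact hne (hR z (not_lt.1 hcon))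
    set g : Fin k → ℤ := fun i => ⌊(2 : ℝ) ^ q * Y U i₀ a z i⌋ with hg
    have hgΓ : g ∈ Γ := by
      rw [hΓ, Fintype.mem_piFinset]
      intro i
      have h1 := Y_abs_le U i₀ a z i
      have h2 : |(2 : ℝ) ^ q * Y U i₀ a z i| ≤ N - 1 := by
        rw [abs_mul, abs_of_pos hq]
        have h3 : |Y U i₀ a z i| ≤ |R₀| + |a| := by
          have := le_abs_self R₀
          linarith
        have h4 := mul_le_mul_of_nonneg_left h3 hq.le
        linarith
      have h5 := abs_le.1 h2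
      rw [Finset.mem_Icc]
      constructor
      · apply Int.le_floor.2
        push_cast
        linarith
      · have h6 := Int.floor_le ((2 : ℝ) ^ q * Y U i₀ a z i)
        have h7 : ((g i : ℤ) : ℝ) ≤ ((N : ℤ) : ℝ) := by
          push_cast
          linarith
        exact_mod_cast h7
    have hstrict : ∀ i, (g i : ℝ) / 2 ^ q < Y U i₀ a z i ∧
        Y U i₀ a z i < ((g i : ℝ) + 1) / 2 ^ q := by
      intro i
      have h6 := Int.floor_le ((2 : ℝ) ^ q * Y U i₀ a z i)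
      have h7 := Int.lt_floor_add_one ((2 : ℝ) ^ q * Y U i₀ a z i)
      have h8 := lt_of_le_of_ne h6 (hz i _).symm
      rw [div_lt_iff₀ hq, lt_div_iff₀ hq]
      constructor
      · rw [mul_comm]; exact h8
      · rw [mul_comm]; exact h7
    have hev : ∀ᶠ n : ℕ in atTop, ∀ i, 1 / ((n : ℝ) + 1) <
        min (Y U i₀ a z i - (g i : ℝ) / 2 ^ q) (((g i : ℝ) + 1) / 2 ^ q - Y U i₀ a z i) := by
      rw [Filter.eventually_all]
      intro i
      apply tendsto_one_div_add_atTop_nhds_zero_nat.eventually_lt_const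
      obtain ⟨h1, h2⟩ := hstrict i
      exact lt_min (by linarith) (by linarith)
    obtain ⟨n, hn⟩ := hev.exists
    rw [Set.mem_iUnion]
    refine ⟨n, ?_⟩
    rw [hs]
    simp only [Set.mem_iUnion, exists_prop]
    refine ⟨g, hgΓ, fun i => ?_⟩
    obtain ⟨h1, h2⟩ := lt_min_iff.1 (hn i)
    constructor <;> linarith
  rw [hall] at hlim
  obtain ⟨n, hn⟩ := (hlim.eventually_const_lt (show 1 - η < 1 by linarith)).exists
  exact ⟨1 / ((n : ℝ) + 1), by positivity, hn.le⟩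

end final

end COMP2B_

open COMP2B_ in
/-- COMP2B -/
theorem stmt_COMP2B : Stmt_COMP2B := by
  intro k f φ c _ h hT U i₀ a p F _
  obtain ⟨W, hW0, hW⟩ := trq_near U i₀ a p F
  obtain ⟨C, hC0, hC⟩ := hT W
  refine ⟨C, fun q M hpq => ?_⟩
  have hfi : Integrable f := by
    by_contra hcon
    have := integral_undef hcon
    rw [h.mass] at this
    exact one_ne_zero this
  obtain ⟨Γ, hΓ⟩ := mass_lim U i₀ a h q
  have he : 0 < Real.exp (-(M : ℝ)) := Real.exp_pos _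
  set e : ℝ := Real.exp (-(M : ℝ)) with hedef
  set τ : E k → E k := trq U i₀ a p q F with hτ
  have hτm : Measurable τ := trq_meas U i₀ a p q F
  set K : E k × E k → ℝ := fun z =>
    Real.log (‖τ z.1 - τ z.2‖ ^ 2 + e ^ 2) - Real.log (‖z.1 - z.2‖ ^ 2 + e ^ 2) with hKdef
  have hKm : Measurable K := by
    have h1 : Measurable fun z : E k × E k => ‖τ z.1 - τ z.2‖ :=
      ((hτm.comp measurable_fst).sub (hτm.comp measurable_snd)).norm
    have h2 : Measurable fun z : E k × E k => ‖z.1 - z.2‖ :=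
      (measurable_fst.sub measurable_snd).norm
    exact (Real.measurable_log.comp ((h1.pow_const 2).add_const _)).sub
      (Real.measurable_log.comp ((h2.pow_const 2).add_const _))
  set K₀ : ℝ := Real.log (2 + 8 * W ^ 2 / e ^ 2) with hK₀
  have hKb : ∀ z, |K z| ≤ K₀ := by
    intro z
    apply K_bound he (norm_nonneg _) (norm_nonneg _)
    have h1 : |‖τ z.1 - τ z.2‖ - ‖z.1 - z.2‖| ≤ ‖(τ z.1 - τ z.2) - (z.1 - z.2)‖ :=
      abs_norm_sub_norm_le _ _
    have h2 : (τ z.1 - τ z.2) - (z.1 - z.2) = (τ z.1 - z.1) - (τ z.2 - z.2) := by abel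
    rw [h2] at h1
    have h3 := norm_sub_le (τ z.1 - z.1) (τ z.2 - z.2)
    have h4 := hW q z.1
    have h5 := hW q z.2
    linarith
  have hK0 : 0 ≤ K₀ := (abs_nonneg _).trans (hKb (0, 0))
  have hint : Integrable (fun z : E k × E k => K z * (f z.1 * f z.2)) (volume.prod volume) := by
    apply (hfi.mul_prod hfi).bdd_mul (c := K₀) hKm.aestronglyMeasurable
    filter_upwards with z
    rw [Real.norm_eq_abs]
    exact hKb z
  have hdIM : dIM f M τ = ∫ z, ∫ z', K (z, z') * (f z * f z') := rfl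
  rw [hdIM]
  apply le_of_forall_pos_le_add
  intro ε hε
  have hη : 0 < ε / (C + 2 * K₀ + 1) := by positivity
  obtain ⟨δ, hδ, hmass⟩ := hΓ _ hη
  have hn : 0 < 2 ^ (q - p) := by positivity
  have hdisj : ∀ g ∈ Γ, ∀ g' ∈ Γ, g ≠ g' →
      Disjoint (cell U i₀ a q δ g) (cell U i₀ a q δ g') := by
    intro g _ g' _ hg
    rw [Set.disjoint_left]
    intro z hz hz'
    have := cell_sep U i₀ a hg hz hz'
    rw [sub_self, norm_zero] at this
    linarith
  have h1 := hC M (Fin k → ℤ) Γ (cell U i₀ a q δ) (wv U i₀ p q F) (2 * δ) (by positivity)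
    (fun g _ => wv_near U i₀ a hpq F (hW q) g)
    (fun g _ => ⟨cell_bounded U i₀ a q δ g, cell_meas U i₀ a q δ g, cell_frontier U i₀ a q δ g⟩)
    hdisj
    (by
      intro g _ g' _ hg z hz z' hz'
      exact cell_sep U i₀ a (fun hh => hg (hat_inj i₀ _ hn F hh))
        (cell_move U i₀ a F hz) (cell_move U i₀ a F hz'))
  have h2 : ∑ g ∈ Γ, ∑ g' ∈ Γ, ∫ z in cell U i₀ a q δ g, ∫ z' in cell U i₀ a q δ g',
      (Real.log (‖(z + wv U i₀ p q F g) - (z' + wv U i₀ p q F g')‖ ^ 2 + Real.exp (-(M : ℝ)) ^ 2)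
        - Real.log (‖z - z'‖ ^ 2 + Real.exp (-(M : ℝ)) ^ 2)) * (f z * f z')
      = ∑ g ∈ Γ, ∑ g' ∈ Γ, ∫ z in cell U i₀ a q δ g, ∫ z' in cell U i₀ a q δ g',
        K (z, z') * (f z * f z') := by
    apply Finset.sum_congr rfl
    intro g _
    apply Finset.sum_congr rfl
    intro g' _
    apply setIntegral_congr_fun (cell_meas U i₀ a q δ g)
    intro z hz
    apply setIntegral_congr_fun (cell_meas U i₀ a q δ g')
    intro z' hz'
    have e1 := trq_eq U i₀ a hpq F g z (floor_cell U i₀ a hδ hz)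
    have e2 := trq_eq U i₀ a hpq F g' z' (floor_cell U i₀ a hδ hz')
    simp only [hKdef, hτ, e1, e2, hedef]
  have h3 := cells_sum (Γ := Γ) (H := fun z => K z * (f z.1 * f z.2))
    (fun g => cell_meas U i₀ a q δ g) hdisj hint
  have h4 : ∑ g ∈ Γ, ∫ z in cell U i₀ a q δ g, f z = ∫ z in ⋃ g ∈ Γ, cell U i₀ a q δ g, f z := by
    rw [integral_biUnion_finset Γ (fun g _ => cell_meas U i₀ a q δ g)]
    · intro g hg g' hg' hne
      exact hdisj g hg g' hg' hne
    · intro g _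
      exact hfi.integrableOn
  have hDm : MeasurableSet (⋃ g ∈ Γ, cell U i₀ a q δ g) :=
    Finset.measurableSet_biUnion _ fun g _ => cell_meas U i₀ a q _ g
  have h5 := restr h.nonneg hfi h.mass hKm hKb hDm
  rw [h2, h4] at h1
  simp only at h3
  rw [h3] at h1
  have h6 : 1 - ∫ z in ⋃ g ∈ Γ, cell U i₀ a q δ g, f z ≤ ε / (C + 2 * K₀ + 1) := by linarith
  have h7 := mul_le_mul_of_nonneg_left h6 (by positivity : 0 ≤ C + 2 * K₀)
  have h8 : (C + 2 * K₀) * (ε / (C + 2 * K₀ + 1)) ≤ ε := by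
    rw [mul_div_assoc', div_le_iff₀ (by positivity)]
    nlinarith
  linarith

end Pool.NS
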