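import Pool.Agent.Work.MP_b29d7f_ns.Interface3

/-! # Block RAD: one-sided densities are radial about their barycentre -/

set_option autoImplicit false

open Finset Filter Topology MeasureTheory

namespace Pool.NS

namespace RAD_

variable {k : ℕ}

/-! ## The reflection -/

lemma rfx_inner {u : E k} (hu : ‖u‖ = 1) (a : ℝ) (z : E k) :
    inner ℝ u (rfx u a z) - a = -(inner ℝ u z - a) := by
  unfold rfx
  rw [inner_sub_right, inner_smul_right, real_inner_self_eq_norm_sq, hu]
  ring

lemma rfx_rfx {u : E k} (hu : ‖u‖ = 1) (a : ℝ) (z : E k) : rfx u a (rfx u a z) = z := by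
  have h1 : rfx u a (rfx u a z) = rfx u a z - (2 * (inner ℝ u (rfx u a z) - a)) • u := rfl
  rw [h1, rfx_inner hu]
  unfold rfx
  module

lemma norm_rfx_sub {u : E k} (hu : ‖u‖ = 1) (a : ℝ) (z w : E k) :
    ‖rfx u a z - rfx u a w‖ = ‖z - w‖ := by
  have h1 : rfx u a z - rfx u a w = (z - w) - (2 * inner ℝ u (z - w)) • u := by
    unfold rfx
    rw [inner_sub_right]
    module
  have h2 : ‖rfx u a z - rfx u a w‖ ^ 2 = ‖z - w‖ ^ 2 := by
    rw [h1, norm_sub_sq_real, inner_smul_right, norm_smul, hu, real_inner_comm, Real.norm_eq_abs,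
      mul_one, sq_abs]
    ring
  exact (pow_left_inj₀ (norm_nonneg _) (norm_nonneg _) two_ne_zero).1 h2

lemma norm_sub_rfx {u : E k} (hu : ‖u‖ = 1) (a : ℝ) (x z : E k) :
    ‖x - rfx u a z‖ = ‖rfx u a x - z‖ := by
  rw [← norm_rfx_sub hu a x (rfx u a z), rfx_rfx hu]

lemma rfx_measurePreserving {u : E k} (hu : ‖u‖ = 1) (a : ℝ) :
    MeasurePreserving (rfx u a) (volume : Measure (E k)) volume := by
  have h1 : MeasurePreserving (Submodule.reflection (ℝ ∙ u)ᗮ : E k → E k) volume volume :=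
    LinearIsometryEquiv.measurePreserving _
  have h2 : MeasurePreserving (fun z : E k => z + (2 * a) • u) volume volume :=
    measurePreserving_add_right volume _
  have h3 := h2.comp h1
  have h4 : rfx u a = (fun z : E k => z + (2 * a) • u) ∘ (Submodule.reflection (ℝ ∙ u)ᗮ) := by
    funext z
    simp only [Function.comp_apply, Submodule.reflection_orthogonal_apply,
      Submodule.reflection_singleton_apply]
    unfold rfx
    rw [hu]
    simp only [RCLike.ofReal_real_eq_id, id_eq, one_pow, div_one]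
    module
  rw [h4]
  exact h3

/-- the reflection as a measurable equivalence -/
noncomputable def rfe {u : E k} (hu : ‖u‖ = 1) (a : ℝ) : E k ≃ᵐ E k :=
  MeasurableEquiv.ofInvolutive (rfx u a) (rfx_rfx hu a) (rfx_measurePreserving hu a).measurable

lemma rfe_coe {u : E k} (hu : ‖u‖ = 1) (a : ℝ) : (rfe hu a : E k → E k) = rfx u a := rfl

lemma integral_rfx {u : E k} (hu : ‖u‖ = 1) (a : ℝ) (g : E k → ℝ) :
    ∫ z, g (rfx u a z) = ∫ z, g z :=
  (rfx_measurePreserving hu a).integral_comp (rfe hu a).measurableEmbedding g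

lemma integrable_rfx {u : E k} (hu : ‖u‖ = 1) (a : ℝ) {g : E k → ℝ} (hg : Integrable g) :
    Integrable fun z => g (rfx u a z) :=
  (rfx_measurePreserving hu a).integrable_comp_of_integrable hg

lemma ae_rfx {u : E k} (hu : ‖u‖ = 1) (a : ℝ) {p : E k → Prop} (hp : ∀ᵐ z, p z) :
    ∀ᵐ z, p (rfx u a z) :=
  (rfx_measurePreserving hu a).quasiMeasurePreserving.ae hp

/-- antisymmetric functions -/
lemma half {u : E k} (hu : ‖u‖ = 1) (a : ℝ) {g f : E k → ℝ}
    (hg : ∀ z, g (rfx u a z) = - g z) (hint : Integrable fun z => g z * f z) :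
    (Integrable fun z => g z * (f z - f (rfx u a z))) ∧
      ∫ z, g z * (f z - f (rfx u a z)) = 2 * ∫ z, g z * f z := by
  have h1 := integrable_rfx hu a hint
  have h2 : (fun z => g (rfx u a z) * f (rfx u a z)) = fun z => -(g z * f (rfx u a z)) := by
    funext z; rw [hg]; ring
  have h3 : (fun z => g z * (f z - f (rfx u a z))) =
      fun z => g z * f z + g (rfx u a z) * f (rfx u a z) := by
    funext z; rw [hg]; ring
  constructor
  · rw [h3]; exact hint.add h1
  · rw [h3, integral_add hint h1, integral_rfx hu a (fun z => g z * f z)]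
    ring

/-! ## Integrability -/

lemma log_ball (hk : k = 1 ∨ k = 2) (R : ℝ) :
    IntegrableOn (fun z : E k => Real.log ‖z‖) (Metric.ball 0 R) := by
  have hn : Nontrivial (E k) := by
    rcases hk with rfl | rfl <;> infer_instance
  rw [integrableOn_fun_norm_addHaar (μ := (volume : Measure (E k)))]
  have hlog : IntegrableOn (fun y : ℝ => Real.log y) (Set.Ioo 0 R) := by
    rcases le_or_gt R 0 with h | h
    · rw [Set.Ioo_eq_empty (not_lt.2 h)]; exact integrableOn_empty
    · have := (intervalIntegral.intervalIntegrable_log' (a := 0) (b := R)).1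
      exact this.mono_set Set.Ioo_subset_Ioc_self
  have hfr : Module.finrank ℝ (E k) = k := by simp
  rw [hfr]
  rcases hk with rfl | rfl
  · simpa using hlog
  · have h2 : IntegrableOn (fun y : ℝ => y * Real.log y) (Set.Ioo 0 R) := by
      apply Integrable.bdd_mul (c := R) hlog
      · exact measurable_id.aestronglyMeasurable
      · filter_upwards [ae_restrict_mem measurableSet_Ioo] with y hy
        rw [Real.norm_eq_abs, abs_of_pos hy.1]
        exact hy.2.le
    simpa using h2

lemma integrable_mul_of_bdd {f g : E k → ℝ} {B R₀ : ℝ} (hf : Measurable f)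
    (h0 : ∀ z, 0 ≤ f z) (hB : ∀ z, f z ≤ B) (hs : ∀ z, R₀ ≤ ‖z‖ → f z = 0)
    (hg : IntegrableOn g (Metric.ball 0 R₀)) : Integrable fun z => g z * f z := by
  have h1 : IntegrableOn (fun z => g z * f z) (Metric.ball 0 R₀) := by
    have h2 : IntegrableOn (fun z => f z * g z) (Metric.ball 0 R₀) := by
      apply Integrable.bdd_mul (c := B) hg
      · exact hf.aestronglyMeasurable
      · filter_upwards with z
        rw [Real.norm_eq_abs, abs_of_nonneg (h0 z)]
        exact hB z
    exact h2.congr (Filter.Eventually.of_forall fun z => mul_comm _ _)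
  apply h1.integrable_of_forall_notMem_eq_zero
  intro z hz
  rw [Metric.mem_ball, dist_zero_right, not_lt] at hz
  rw [hs z hz, mul_zero]

lemma log_sub_ball (hk : k = 1 ∨ k = 2) (x : E k) (R : ℝ) :
    IntegrableOn (fun z : E k => Real.log ‖x - z‖) (Metric.ball 0 R) := by
  have h1 := log_ball hk (R + ‖x‖)
  rw [← integrable_indicator_iff measurableSet_ball] at h1 
  have h2 := h1.comp_sub_left x
  rw [← integrable_indicator_iff measurableSet_ball]
  have h3 := h2.indicator (s := Metric.ball (0 : E k) R) measurableSet_ball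
  refine h3.congr (Filter.Eventually.of_forall fun z => ?_)
  by_cases hz : z ∈ Metric.ball (0 : E k) R
  · simp only [Set.indicator_of_mem hz]
    rw [Set.indicator_of_mem]
    rw [Metric.mem_ball, dist_zero_right] at hz ⊢
    have := norm_sub_le x z
    linarith
  · simp only [Set.indicator_of_notMem hz]

lemma int_log {f φ : E k → ℝ} (hk : k = 1 ∨ k = 2) (h : Dens k f φ) (x : E k) :
    Integrable fun z => Real.log ‖x - z‖ * f z := by
  obtain ⟨B, hB⟩ := h.bdd
  obtain ⟨R₀, hR⟩ := h.supp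
  exact integrable_mul_of_bdd h.meas h.nonneg hB hR (log_sub_ball hk x R₀)

lemma int_cont {f φ g : E k → ℝ} (h : Dens k f φ) (hg : Continuous g) :
    Integrable fun z => g z * f z := by
  obtain ⟨B, hB⟩ := h.bdd
  obtain ⟨R₀, hR⟩ := h.supp
  apply integrable_mul_of_bdd h.meas h.nonneg hB hR
  exact (hg.continuousOn.integrableOn_compact (isCompact_closedBall (0 : E k) R₀)).mono_set
    Metric.ball_subset_closedBall

/-! ## The signs -/

lemma sign_pos {f : E k → ℝ} {u : E k} (hu : ‖u‖ = 1) (a : ℝ)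
    (h : ∀ᵐ z, a < inner ℝ u z → f (rfx u a z) ≤ f z) :
    ∀ᵐ z, 0 ≤ (inner ℝ u z - a) * (f z - f (rfx u a z)) := by
  filter_upwards [h, ae_rfx hu a h] with z h1 h2
  rcases lt_trichotomy (inner ℝ u z) a with h3 | h3 | h3
  · have h4 := rfx_inner hu a z
    have h5 := h2 (by linarith)
    rw [rfx_rfx hu] at h5
    nlinarith
  · rw [h3, sub_self, zero_mul]
  · have := h1 h3
    nlinarith

lemma sign_neg {f : E k → ℝ} {u : E k} (hu : ‖u‖ = 1) (a : ℝ)
    (h : ∀ᵐ z, a < inner ℝ u z → f z ≤ f (rfx u a z)) :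
    ∀ᵐ z, (inner ℝ u z - a) * (f z - f (rfx u a z)) ≤ 0 := by
  filter_upwards [h, ae_rfx hu a h] with z h1 h2
  rcases lt_trichotomy (inner ℝ u z) a with h3 | h3 | h3
  · have h4 := rfx_inner hu a z
    have h5 := h2 (by linarith)
    rw [rfx_rfx hu] at h5
    nlinarith
  · rw [h3, sub_self, zero_mul]
  · have := h1 h3
    nlinarith

lemma int_id {f φ : E k → ℝ} (h : Dens k f φ) : Integrable fun z => f z • z := by
  apply (int_cont h continuous_norm).mono'
  · exact h.meas.aestronglyMeasurable.smul aestronglyMeasurable_id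
  · filter_upwards with z
    rw [norm_smul, Real.norm_eq_abs, abs_of_nonneg (h.nonneg z), mul_comm]

lemma int_f {f φ : E k → ℝ} (h : Dens k f φ) : Integrable f := by
  have := int_cont h (continuous_const (y := (1 : ℝ)))
  simpa using this

lemma inner_z0 {f φ : E k → ℝ} (h : Dens k f φ) (u : E k) (a : ℝ) :
    ∫ z, (inner ℝ u z - a) * f z = inner ℝ u (∫ z, f z • z) - a := by
  have h1 : inner ℝ u (∫ z, f z • z) = ∫ z, inner ℝ u z * f z := by
    have := (innerSL ℝ u).integral_comp_comm (int_id h)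
    rw [innerSL_apply_apply] at this
    rw [← this]
    apply integral_congr_ae
    filter_upwards with z
    rw [innerSL_apply_apply, inner_smul_right]
    ring
  have h2 : (fun z => (inner ℝ u z - a) * f z) = fun z => inner ℝ u z * f z - a * f z := by
    funext z; ring
  rw [h2, integral_sub (int_cont h (by fun_prop)) ((int_f h).const_mul a), integral_const_mul,
    h.mass, h1, mul_one]

lemma int_hD {f φ : E k → ℝ} (h : Dens k f φ) {u : E k} (hu : ‖u‖ = 1) (a : ℝ) :
    (Integrable fun z => (inner ℝ u z - a) * (f z - f (rfx u a z))) ∧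
    ∫ z, (inner ℝ u z - a) * (f z - f (rfx u a z)) = 2 * (inner ℝ u (∫ z, f z • z) - a) := by
  have h1 : Integrable fun z => (inner ℝ u z - a) * f z := int_cont h (by fun_prop)
  have h2 := half hu a (g := fun z => inner ℝ u z - a) (rfx_inner hu a) h1
  rw [inner_z0 h] at h2
  exact h2

lemma key {f φ : E k → ℝ} (h : Dens k f φ) (hos : OneSided f) {u : E k} (hu : ‖u‖ = 1) (a : ℝ)
    (ha : a ≤ inner ℝ u (∫ z, f z • z)) :
    ∀ᵐ z, 0 ≤ (inner ℝ u z - a) * (f z - f (rfx u a z)) := by
  rcases hos u a hu with h1 | h1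
  · exact sign_pos hu a h1
  · have h2 := sign_neg hu a h1
    obtain ⟨h3, h4⟩ := int_hD h hu a
    have h5 : 0 ≤ᵐ[volume] fun z => -((inner ℝ u z - a) * (f z - f (rfx u a z))) := by
      filter_upwards [h2] with z hz
      simpa using hz
    have h6 := integral_nonneg_of_ae h5
    rw [integral_neg, h4] at h6
    have h7 : ∫ z, -((inner ℝ u z - a) * (f z - f (rfx u a z))) = 0 := by
      rw [integral_neg, h4]; linarith
    have h8 := (integral_eq_zero_iff_of_nonneg_ae h5 h3.neg).1 h7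
    filter_upwards [h8] with z hz
    have : -((inner ℝ u z - a) * (f z - f (rfx u a z))) = 0 := hz
    linarith

lemma key_eq {f φ : E k → ℝ} (h : Dens k f φ) (hos : OneSided f) {u : E k} (hu : ‖u‖ = 1) (a : ℝ)
    (ha : a = inner ℝ u (∫ z, f z • z)) : ∀ᵐ z, f (rfx u a z) = f z := by
  have h1 := key h hos hu a ha.le
  obtain ⟨h3, h4⟩ := int_hD h hu a
  have h7 : ∫ z, (inner ℝ u z - a) * (f z - f (rfx u a z)) = 0 := by
    rw [h4]; linarith
  have h8 := (integral_eq_zero_iff_of_nonneg_ae h1 h3).1 h7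
  filter_upwards [h8] with z hz
  have h9 : (inner ℝ u z - a) * (f z - f (rfx u a z)) = 0 := hz
  rcases mul_eq_zero.1 h9 with h10 | h10
  · have : rfx u a z = z := by unfold rfx; rw [h10]; simp
    rw [this]
  · linarith

lemma inner_e (i : Fin k) (z : E k) : inner ℝ (EuclideanSpace.single i (1 : ℝ)) z = z i := by
  rw [EuclideanSpace.inner_single_left]
  simp

/-- symmetry -/
lemma sym {f φ : E k → ℝ} (hk : k = 1 ∨ k = 2) (h : Dens k f φ) (hos : OneSided f) :
    ∀ᵐ z, f ((2 : ℝ) • (∫ z, f z • z) - z) = f z := by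
  generalize hz0 : (∫ z, f z • z) = z₀
  rcases hk with rfl | rfl
  · have hu : ‖(EuclideanSpace.single (0 : Fin 1) (1 : ℝ) : E 1)‖ = 1 := by simp
    have h1 := key_eq h hos hu (inner ℝ (EuclideanSpace.single (0 : Fin 1) (1 : ℝ)) z₀)
      (by rw [hz0])
    filter_upwards [h1] with z hz
    rw [← hz]
    congr 1
    ext i
    fin_cases i
    simp [rfx, inner_e]
    ring
  · have hu0 : ‖(EuclideanSpace.single (0 : Fin 2) (1 : ℝ) : E 2)‖ = 1 := by simp
    have hu1 : ‖(EuclideanSpace.single (1 : Fin 2) (1 : ℝ) : E 2)‖ = 1 := by simp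
    have h0 := key_eq h hos hu0 (inner ℝ (EuclideanSpace.single (0 : Fin 2) (1 : ℝ)) z₀)
      (by rw [hz0])
    have h1 := key_eq h hos hu1 (inner ℝ (EuclideanSpace.single (1 : Fin 2) (1 : ℝ)) z₀)
      (by rw [hz0])
    have h2 := ae_rfx hu1 (inner ℝ (EuclideanSpace.single (1 : Fin 2) (1 : ℝ)) z₀) h0
    filter_upwards [h1, h2] with z hz hz2
    rw [← hz, ← hz2]
    congr 1
    ext i
    fin_cases i
    · simp [rfx, inner_e]
      ring
    · simp [rfx, inner_e]
      ring

/-! ## Monotonicity of the potential -/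

lemma bis_x {x y : E k} (hxy : x ≠ y) :
    rfx (‖x - y‖⁻¹ • (x - y)) (inner ℝ (‖x - y‖⁻¹ • (x - y)) ((1 / 2 : ℝ) • (x + y))) x = y := by
  have hd : ‖x - y‖ ≠ 0 := norm_ne_zero_iff.2 (sub_ne_zero.2 hxy)
  have h1 : 2 * (inner ℝ (‖x - y‖⁻¹ • (x - y)) x
      - inner ℝ (‖x - y‖⁻¹ • (x - y)) ((1 / 2 : ℝ) • (x + y))) = ‖x - y‖ := by
    have h2 : x - (1 / 2 : ℝ) • (x + y) = (1 / 2 : ℝ) • (x - y) := by module
    rw [← inner_sub_right, h2, inner_smul_left, inner_smul_right, real_inner_self_eq_norm_sq]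
    simp only [conj_trivial]
    field_simp
  unfold rfx
  rw [h1, smul_smul, mul_inv_cancel₀ hd, one_smul, sub_sub_cancel]

lemma bis_norm {x y : E k} (hxy : x ≠ y) (z : E k) :
    ‖y - z‖ ^ 2 - ‖x - z‖ ^ 2 = 2 * ‖x - y‖ * (inner ℝ (‖x - y‖⁻¹ • (x - y)) z
      - inner ℝ (‖x - y‖⁻¹ • (x - y)) ((1 / 2 : ℝ) • (x + y))) := by
  have hd : ‖x - y‖ ≠ 0 := norm_ne_zero_iff.2 (sub_ne_zero.2 hxy)
  rw [inner_smul_left, inner_smul_left, inner_smul_right]
  simp only [conj_trivial]
  have h1 : inner ℝ (x - y) (x + y) = ‖x‖ ^ 2 - ‖y‖ ^ 2 := by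
    rw [inner_sub_left, inner_add_right, inner_add_right, real_inner_self_eq_norm_sq,
      real_inner_self_eq_norm_sq, real_inner_comm x y]
    ring
  rw [h1, inner_sub_left, norm_sub_sq_real, norm_sub_sq_real]
  field_simp
  ring

lemma log_pt {A B t : ℝ} (hB : 0 < B) (ht : 0 ≤ t) (hA : A = B + 2 * t) :
    t / A ≤ Real.log A / 2 - Real.log B / 2 := by
  have hA' : 0 < A := by linarith
  have h1 := Real.log_le_sub_one_of_pos (div_pos hB hA')
  rw [Real.log_div hB.ne' hA'.ne'] at h1
  have h2 : B / A = 1 - 2 * (t / A) := by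
    field_simp
    linarith
  rw [h2] at h1
  linarith

lemma log_norm_sq (w : E k) : Real.log ‖w‖ = Real.log (‖w‖ ^ 2) / 2 := by
  rw [Real.log_pow]
  push_cast
  ring

/-- the pointwise inequality on one side of the mirror -/
lemma pt_pos {x y z u : E k} {a d M Dz : ℝ} (hM : 0 < M) (hd : 0 < d)
    (hn : ‖y - z‖ ^ 2 - ‖x - z‖ ^ 2 = 2 * d * (inner ℝ u z - a)) (hzx : z ≠ x)
    (hh : 0 < inner ℝ u z - a) (hD : 0 ≤ Dz) (hDM : Dz ≠ 0 → ‖y - z‖ ≤ M) :
    d / M ^ 2 * ((inner ℝ u z - a) * Dz) ≤ (Real.log ‖y - z‖ - Real.log ‖x - z‖) * Dz := by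
  by_cases h0 : Dz = 0
  · rw [h0]; simp
  have h1 := hDM h0
  have hB : 0 < ‖x - z‖ ^ 2 := by
    have : 0 < ‖x - z‖ := norm_pos_iff.2 (sub_ne_zero.2 hzx.symm)
    positivity
  have ht : 0 < d * (inner ℝ u z - a) := mul_pos hd hh
  have h2 := log_pt (A := ‖y - z‖ ^ 2) hB ht.le (by linarith)
  rw [← log_norm_sq, ← log_norm_sq] at h2
  have hA : 0 < ‖y - z‖ ^ 2 := by linarith
  have h3 : ‖y - z‖ ^ 2 ≤ M ^ 2 := by
    have := norm_nonneg (y - z)
    nlinarith
  have h4 : d * (inner ℝ u z - a) / M ^ 2 ≤ d * (inner ℝ u z - a) / ‖y - z‖ ^ 2 :=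
    div_le_div_of_nonneg_left ht.le hA h3
  have h5 : d / M ^ 2 * ((inner ℝ u z - a) * Dz) = d * (inner ℝ u z - a) / M ^ 2 * Dz := by ring
  rw [h5]
  exact mul_le_mul_of_nonneg_right (h4.trans h2) hD

lemma low {f φ : E k → ℝ} (hk : k = 1 ∨ k = 2) (h : Dens k f φ) (hos : OneSided f) (B : ℝ) :
    ∃ c : ℝ, 0 < c ∧ ∀ x y : E k, ‖x‖ ≤ B → ‖y‖ ≤ B →
      ‖x - ∫ z, f z • z‖ ≤ ‖y - ∫ z, f z • z‖ →
      c * (‖y - ∫ z, f z • z‖ ^ 2 - ‖x - ∫ z, f z • z‖ ^ 2) ≤ φ y - φ x := by
  have hn : Nontrivial (E k) := by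
    rcases hk with rfl | rfl <;> infer_instance
  have hk1 : (0 : ℝ) < k := by
    rcases hk with rfl | rfl <;> norm_num
  obtain ⟨R₀, hR⟩ := h.supp
  set M : ℝ := |B| + |R₀| + 1 with hMdef
  have hM : 0 < M := by positivity
  refine ⟨k / 2 / M ^ 2, by positivity, ?_⟩
  intro x y hx hy hxy
  generalize hz0 : (∫ z, f z • z) = z₀ at hxy ⊢
  by_cases hne : x = y
  · rw [hne]; simp
  have hd : 0 < ‖x - y‖ := norm_pos_iff.2 (sub_ne_zero.2 hne)
  have hrx := bis_x hne
  have hbn := bis_norm hne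
  have hu : ‖(‖x - y‖⁻¹ • (x - y))‖ = 1 := by
    rw [norm_smul, norm_inv, norm_norm, inv_mul_cancel₀ hd.ne']
  generalize hau : inner ℝ (‖x - y‖⁻¹ • (x - y)) ((1 / 2 : ℝ) • (x + y)) = a at hrx hbn
  generalize (‖x - y‖⁻¹ • (x - y)) = u at hrx hbn hu
  have hry : rfx u a y = x := by rw [← hrx, rfx_rfx hu]
  -- the mirror separates `x` and `y`, `z₀` is on the side of `x`
  have h1 := hbn z₀
  have hle : ‖x - z₀‖ ^ 2 ≤ ‖y - z₀‖ ^ 2 := by
    have := norm_nonneg (x - z₀)
    nlinarith
  have ha : a ≤ inner ℝ u (∫ z, f z • z) := by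
    rw [hz0]
    by_contra hcon
    have : 2 * ‖x - y‖ * (inner ℝ u z₀ - a) < 0 :=
      mul_neg_of_pos_of_neg (by positivity) (by linarith)
    linarith
  have hkey := key h hos hu a ha
  obtain ⟨hi1, hi2⟩ := int_hD h hu a
  have hgint : Integrable fun z => (Real.log ‖y - z‖ - Real.log ‖x - z‖) * f z := by
    have := (int_log hk h y).sub (int_log hk h x)
    refine this.congr (Filter.Eventually.of_forall fun z => ?_)
    simp only [Pi.sub_apply]
    ring
  have hganti : ∀ z, (Real.log ‖y - rfx u a z‖ - Real.log ‖x - rfx u a z‖)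
      = -(Real.log ‖y - z‖ - Real.log ‖x - z‖) := by
    intro z
    rw [norm_sub_rfx hu, norm_sub_rfx hu, hrx, hry]
    ring
  obtain ⟨hg1, hg2⟩ := half hu a (g := fun z => Real.log ‖y - z‖ - Real.log ‖x - z‖) hganti hgint
  have hφ : φ y - φ x = k * ∫ z, (Real.log ‖y - z‖ - Real.log ‖x - z‖) * f z := by
    rw [h.pot, h.pot, ← mul_sub, ← integral_sub (int_log hk h y) (int_log hk h x)]
    congr 1
    apply integral_congr_ae
    filter_upwards with z
    ring
  have hnx : ∀ᵐ z : E k, z ≠ x := by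
    rw [ae_iff]
    simp
  have hny : ∀ᵐ z : E k, z ≠ y := by
    rw [ae_iff]
    simp
  have hMz : ∀ w z : E k, ‖w‖ ≤ B → ‖z‖ < R₀ → ‖w - z‖ ≤ M := by
    intro w z hw hz
    have h2 := norm_sub_le w z
    have h3 := le_abs_self B
    have h4 := le_abs_self R₀
    linarith
  have hmain : ∀ᵐ z, ‖x - y‖ / M ^ 2 * ((inner ℝ u z - a) * (f z - f (rfx u a z))) ≤
      (Real.log ‖y - z‖ - Real.log ‖x - z‖) * (f z - f (rfx u a z)) := by
    filter_upwards [hkey, hnx, hny] with z hz hzx hzy
    rcases lt_trichotomy (inner ℝ u z - a) 0 with h3 | h3 | h3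
    · have h4 := rfx_inner hu a z
      have h5 : 0 < inner ℝ u (rfx u a z) - a := by linarith
      have h6 : rfx u a z ≠ x := by
        intro h7
        apply hzy
        rw [← rfx_rfx hu a z, h7, hrx]
      have h8 : f z - f (rfx u a z) ≤ 0 := by
        by_contra hcon
        push Not at hcon
        have := mul_neg_of_neg_of_pos h3 hcon
        linarith
      have h9 := pt_pos (x := x) (y := y) (z := rfx u a z) (u := u) (a := a)
        (Dz := f (rfx u a z) - f z) hM hd (hbn _) h6 h5 (by linarith) (by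
          intro h10
          apply hMz _ _ hy
          by_contra hcon
          push Not at hcon
          apply h10
          have h11 := hR _ hcon
          have h12 := h.nonneg z
          rw [h11] at h8 ⊢
          linarith)
      rw [hganti, h4] at h9
      have h10 : ‖x - y‖ / M ^ 2 * (-(inner ℝ u z - a) * (f (rfx u a z) - f z))
          = ‖x - y‖ / M ^ 2 * ((inner ℝ u z - a) * (f z - f (rfx u a z))) := by ring
      have h11 : -(Real.log ‖y - z‖ - Real.log ‖x - z‖) * (f (rfx u a z) - f z)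
          = (Real.log ‖y - z‖ - Real.log ‖x - z‖) * (f z - f (rfx u a z)) := by ring
      rw [h10, h11] at h9
      exact h9
    · have h4 := hbn z
      rw [h3, mul_zero, sub_eq_zero] at h4
      have h5 : ‖y - z‖ = ‖x - z‖ := (pow_left_inj₀ (norm_nonneg _) (norm_nonneg _) two_ne_zero).1 h4
      rw [h3, h5]
      simp
    · have h8 : 0 ≤ f z - f (rfx u a z) := by
        by_contra hcon
        push Not at hcon
        have := mul_neg_of_pos_of_neg h3 hcon
        linarith
      apply pt_pos hM hd (hbn _) hzx h3 h8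
      intro h10
      apply hMz _ _ hy
      by_contra hcon
      push Not at hcon
      apply h10
      have h11 := hR _ hcon
      have h12 := h.nonneg (rfx u a z)
      rw [h11] at h8 ⊢
      linarith
  have h2 := integral_mono_ae (hi1.const_mul _) hg1 hmain
  rw [integral_const_mul, hi2] at h2
  rw [hg2, hz0] at h2
  rw [hφ, h1]
  have h3 : k / 2 / M ^ 2 * (2 * ‖x - y‖ * (inner ℝ u z₀ - a))
      = k / 2 * (‖x - y‖ / M ^ 2 * (2 * (inner ℝ u z₀ - a))) := by ring
  rw [h3]
  have h4 := mul_le_mul_of_nonneg_left h2 (half_pos hk1).le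
  linarith

end RAD_

/-- RAD -/
theorem stmt_RAD : Stmt_RAD := by
  intro k f φ hk h hos
  refine ⟨∫ z, f z • z, RAD_.low hk h hos, RAD_.sym hk h hos, ?_⟩
  intro u a hu ha
  have h1 := RAD_.key h hos hu a ha.le
  filter_upwards [h1] with z hz h2
  by_contra hcon
  push Not at hcon
  have : (inner ℝ u z - a) * (f z - f (rfx u a z)) < 0 :=
    mul_neg_of_pos_of_neg (by linarith) (by linarith)
  linarith

end Pool.NS
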